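import Pool.Agent.helper47.TFQ.Spec

/-!
# QB2: the relation for the Frobenius over a finite field on `V_q(J_a)`

Adapted from `Pool/Agent/helper21/TQ/NB2.lean`.
-/

set_option autoImplicit false

namespace Pool.Agent.TFQ

open Polynomial Pool.Agent.GJ Pool.Agent.TK
open Pool.Agent.FJ (VT Om chiO IsFrobO rf rs)
open Pool.Agent.TD (zK)

noncomputable section

/-- the value at `x` as a homomorphism -/
def QB2_val (q : ℕ) [Fact q.Prime] (A : Type) [AddCommGroup A] (x : ℚ_[q]) : VT q A →+ A where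
  toFun f := f.val x
  map_zero' := VT.zero_val x
  map_add' f g := VT.add_val f g x

theorem QB2_val_apply {q : ℕ} [Fact q.Prime] {A : Type} [AddCommGroup A] (x : ℚ_[q]) (f : VT q A) :
    QB2_val q A x f = f.val x := rfl

theorem QB2_pow {q : ℕ} [Fact q.Prime] {A : Type} [AddCommGroup A] (g : A →+ A) (m : ℕ)
    (f : VT q A) (x : ℚ_[q]) :
    (((VT.map q g : Module.End ℚ_[q] (VT q A)) ^ m) f).val x = g^[m] (f.val x) := by
  induction m generalizing f with
  | zero => rfl
  | succ m ih => rw [pow_succ, Module.End.mul_apply, ih, VT.map_val, Function.iterate_succ_apply]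

theorem QB2_iter {G : Type} [CommGroup G] (e : G ≃* G) (m : ℕ) (a : Additive G) :
    Additive.toMul ((MonoidHom.toAdditive e.toMonoidHom)^[m] a) = e^[m] (Additive.toMul a) := by
  induction m generalizing a with
  | zero => rfl
  | succ m ih => rw [Function.iterate_succ_apply, Function.iterate_succ_apply, ih]; rfl

theorem QB2_not_dvd {p M l α Q : ℕ} (hp : p.Prime) (hQ : Q = p ^ M) (h : l * α = Q - 1) (hl : 0 < l)
    (hα : 0 < α) : ¬ p ∣ l := by
  intro hpl
  have h0 : 0 < l * α := Nat.mul_pos hl hα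
  have hM : M ≠ 0 := by
    rintro rfl
    rw [pow_zero] at hQ
    omega
  have h1 : p ∣ Q := by rw [hQ]; exact dvd_pow_self p hM
  have h2 : p ∣ Q - 1 := by rw [← h]; exact Dvd.dvd.mul_right hpl α
  have h3 : p ∣ Q - (Q - 1) := Nat.dvd_sub h1 h2
  have h4 : Q - (Q - 1) = 1 := by omega
  rw [h4] at h3
  exact hp.one_lt.ne' (Nat.dvd_one.1 h3)

theorem QB2 (hKA4 : TK.KA4_stmt) (hKB6 : TK.KB6_stmt) (hKCC : TK.KCC_stmt) (hQH1 : QH1_stmt)
    (hB1 : FJ.B1_stmt) (hG2 : FJ.G2_stmt) : QB2_stmt := by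
  classical
  intro l n q _ _ μ a hga hfin
  have hlO : NeZero (l : Om) := ⟨by exact_mod_cast (Fact.out (p := l.Prime)).ne_zero⟩
  have hDO : IsDedekindDomain (CR Om l μ a) := hKA4 Om l n μ a
  obtain ⟨S, hS0, hS⟩ := hG2 q (JC Om l μ a) ⊤ 0
  have hex : ∀ s ∈ S, ∃ D0 : ℕ, 0 < D0 ∧ ∀ O : ValuationSubring Om, ((D0 : ℕ) : rf O) ≠ 0 →
    ∀ (a' : Fin (n + 1) → O) (b : Fin (n + 1) → rf O)
      (h : ∀ j, O.subtype (a' j) = a j)
      (h' : ∀ j, rs O (a' j) = b j) [NeZero (l : rf O)] [Good (rf O) l μ b]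
      [IsDedekindDomain (CR (rf O) l μ b)]
      (sp : ClassGroup (CR Om l μ a) →* ClassGroup (CR (rf O) l μ b)),
      IsSp O h h' sp → sp (Additive.toMul s) ≠ 1 := by
    intro s hs
    refine hKCC l n μ a (Additive.toMul s) ?_
    have h1 := (hS0 s hs).1
    rw [pow_zero, one_smul] at h1
    intro h2
    apply h1
    exact Additive.toMul.injective h2
  choose! F hF0 hF using hex
  refine ⟨∏ s ∈ S, F s, Finset.prod_pos fun s hs => hF0 s hs, ?_⟩
  intro p M α _ Fq _ _ _ O _ e χ σ A hP hQ hD0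
  have hFs : ∀ s ∈ S, ((F s : ℕ) : rf O) ≠ 0 := by
    intro s hs h0
    apply hD0
    rw [Nat.cast_prod]
    exact Finset.prod_eq_zero hs h0
  have hlr : NeZero (l : rf O) := ⟨by
    intro h0
    have h1 : p ∣ l := (CharP.cast_eq_zero_iff (rf O) p l).1 h0
    exact QB2_not_dvd (Fact.out (p := p.Prime)) hQ hP.eq (Fact.out (p := l.Prime)).pos hP.pos h1⟩
  have hac : IsAlgClosed (rf O) := (hB1 Om O).1
  have hgood : Good (rf O) l μ (bQ e A) :=
    { inj := fun j j' h => hP.inj (e.injective h)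
      pos := hga.pos
      lt := hga.lt
      inf := hga.inf }
  have hDr : IsDedekindDomain (CR (rf O) l μ (bQ e A)) :=
    hKA4 (rf O) l n μ (bQ e A)
  choose a' ha1 ha2 using hP.int
  obtain ⟨sp, hsp⟩ := hKB6 Om O l n μ a' a (bQ e A) ha1 ha2
  refine LinearMap.ext fun g => ?_
  refine hS (Additive (ClassGroup (CR (rf O) l μ (bQ e A))))
    (MonoidHom.toAdditive sp) ?_ _ Submodule.mem_top ?_
  · intro s hs h0
    exact hF s hs O (hFs s hs) a' (bQ e A) ha1 ha2 sp hsp h0
  · refine VT.ext fun x => ?_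
    rw [VT.map_val, VT.zero_val]
    have h1 := hQH1 l n μ a p M α Fq O e χ σ A hP hQ a' ha1 ha2 sp hsp (Additive.toMul (g.val x))
    have h2 : ((∑ d ∈ Finset.range (n + 1),
        cfQ μ a q χ A d * (VT.map q (actA σ hP.fix (1 : rootsOfUnity l Om)) :
          Module.End ℚ_[q] (VT q (JC Om l μ a))) ^ (n - d) :
          Module.End ℚ_[q] (VT q (JC Om l μ a))) g).val x =
        ∑ k ∈ Finset.range (n + 1), ∑ c ∈ Gq A k,
          actA (RingEquiv.refl Om) (fun _ => rfl)
            (ru l (∏ j, χ ((gq c).eval (A j)) ^ μ j))⁻¹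
            ((actA σ (hP.fix) 1)^[n - k] (g.val x)) := by
      rw [← QB2_val_apply, LinearMap.sum_apply, map_sum]
      refine Finset.sum_congr rfl fun k _ => ?_
      rw [Module.End.mul_apply, cfQ, LinearMap.sum_apply, map_sum]
      refine Finset.sum_congr rfl fun c _ => ?_
      rw [QB2_val_apply, zK, VT.map_val, QB2_pow]
    rw [h2, map_sum]
    apply Additive.toMul.injective
    rw [toMul_sum, toMul_zero, ← h1]
    refine Finset.prod_congr rfl fun k _ => ?_
    rw [map_sum, toMul_sum]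
    refine Finset.prod_congr rfl fun c _ => ?_
    rw [← QB2_iter]
    rfl

end

end Pool.Agent.TFQ
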